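import Mathlib

set_option autoImplicit false

namespace Pool.Agent.Results.MP_c4a6c0_an.Counterexample

def InQ (z : ℂ) : Prop := 0 ≤ z.re ∧ 0 ≤ z.im

def Mono (F : ℂ → ℂ) : Prop :=
  (∃ z, F z ≠ 0) ∧ ∀ α β : ℂ, InQ α → InQ β → F α = 0 → F β = 0 →
    (α.re = β.re → α = β) ∧ (α.re < β.re → α.im ≤ β.im)

def EvenRealEntire (f : ℂ → ℂ) : Prop :=
  Differentiable ℂ f ∧ (∀ x : ℝ, (f x).im = 0) ∧ ∀ z, f (-z) = f z

def Compatible {k : ℕ} (f : Fin k → ℂ → ℂ) : Prop :=
  ∀ c : Fin k → ℝ, (∀ j, 0 ≤ c j) → (∃ z, ∑ j, (c j : ℂ) * f j z ≠ 0) →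
    Mono fun z => ∑ j, (c j : ℂ) * f j z

def cub (a b c d : ℝ) (w : ℂ) : ℂ := a * w ^ 3 + b * w ^ 2 + c * w + d

theorem cub_real (a b c d x : ℝ) : cub a b c d x = 0 ↔ a * x ^ 3 + b * x ^ 2 + c * x + d = 0 := by
  rw [cub]; exact_mod_cast Iff.rfl

theorem cub_fac {a b c d : ℝ} {u : ℂ} (hu : cub a b c d u = 0) (hi : u.im ≠ 0) (w : ℂ) :
    cub a b c d w = (w - u) * (w - (starRingEnd ℂ) u) * (a * w + (b + 2 * a * u.re : ℝ)) := by
  obtain ⟨p, q⟩ := u
  have h1 := congrArg Complex.re hu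
  have h2 := congrArg Complex.im hu
  simp [cub, pow_succ] at h1 h2 hi
  have h3 : c = a * (p ^ 2 + q ^ 2) - 2 * p * (b + 2 * a * p) := by
    apply mul_left_cancel₀ hi
    linear_combination h2
  have h4 : d = (p ^ 2 + q ^ 2) * (b + 2 * a * p) := by
    rw [h3] at h1; linear_combination h1
  have e : (w - ⟨p, q⟩) * (w - (starRingEnd ℂ) ⟨p, q⟩) = w ^ 2 - 2 * p * w + (p ^ 2 + q ^ 2) := by
    have e1 : (⟨p, q⟩ : ℂ) = p + q * Complex.I := by apply Complex.ext <;> simp
    rw [e1]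
    simp only [map_add, map_mul, Complex.conj_ofReal, Complex.conj_I]
    linear_combination (-(q : ℂ) ^ 2) * Complex.I_sq
  rw [e, cub, h3, h4]
  push_cast
  ring

theorem mono_cub {a b c d : ℝ} (h0 : ∃ z : ℂ, cub a b c d (z ^ 2) ≠ 0)
    (h1 : ∀ x : ℝ, a * x ^ 3 + b * x ^ 2 + c * x + d = 0 → 0 < x)
    (h2 : ∀ x p : ℝ, a ≠ 0 → a * x ^ 3 + b * x ^ 2 + c * x + d = 0 →
      (∀ y : ℝ, a * y ^ 3 + b * y ^ 2 + c * y + d = 0 → y = x) → a * x + b + 2 * a * p = 0 →
      x < p) : Mono fun z => cub a b c d (z ^ 2) := by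
  have hlin : ∀ u w : ℂ, cub a b c d u = 0 → u.im ≠ 0 → cub a b c d w = 0 → w ≠ u →
      w ≠ (starRingEnd ℂ) u → a ≠ 0 ∧ w.im = 0 ∧ a * w.re + b + 2 * a * u.re = 0 := by
    intro u w hu hi hw n1 n2
    rw [cub_fac hu hi] at hw
    have h3 := (mul_eq_zero.1 hw).resolve_left
      (mul_ne_zero (sub_ne_zero.2 n1) (sub_ne_zero.2 n2))
    have h4 := congrArg Complex.re h3
    have h5 := congrArg Complex.im h3
    simp at h4 h5
    have ha : a ≠ 0 := by
      rintro rfl
      obtain ⟨z, hz⟩ := h0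
      apply hz
      rw [cub_fac hu hi]
      simp at h4
      simp [h4]
    exact ⟨ha, h5.resolve_left ha, by linarith⟩
  have hre : ∀ α : ℂ, InQ α → cub a b c d (α ^ 2) = 0 → (α ^ 2).im = 0 → α.im = 0 := by
    intro α hq hα hi
    have e : α ^ 2 = ((α ^ 2).re : ℂ) := Complex.ext (by simp) (by simpa using hi)
    rw [e, cub_real] at hα
    have h3 := h1 _ hα
    rw [sq, Complex.mul_re] at h3
    rw [sq, Complex.mul_im] at hi
    by_contra hc
    have h4 : α.re = 0 := by
      apply mul_left_cancel₀ hc; linarith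
    rw [h4] at h3
    nlinarith
  have hmix : ∀ α β : ℂ, InQ α → InQ β → cub a b c d (α ^ 2) = 0 → cub a b c d (β ^ 2) = 0 →
      (α ^ 2).im = 0 → (β ^ 2).im ≠ 0 → α.re < β.re := by
    intro α β qa qb hα hβ ia ib
    have nr : ∀ w : ℂ, w.im = 0 → w ≠ β ^ 2 ∧ w ≠ (starRingEnd ℂ) (β ^ 2) := fun w hw =>
      ⟨fun h => ib (h ▸ hw), fun h => ib (by
        have := congrArg Complex.im h
        rw [Complex.conj_im] at this; linarith)⟩
    obtain ⟨ha, -, h3⟩ := hlin _ _ hβ ib hα (nr _ ia).1 (nr _ ia).2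
    have e : α ^ 2 = ((α ^ 2).re : ℂ) := Complex.ext (by simp) (by simpa using ia)
    have h4 := h2 (α ^ 2).re (β ^ 2).re ha ((cub_real _ _ _ _ _).1 (e ▸ hα)) (fun y hy => by
      obtain ⟨-, -, h5⟩ := hlin _ _ hβ ib ((cub_real _ _ _ _ _).2 hy) (nr y (by simp)).1
        (nr y (by simp)).2
      apply mul_left_cancel₀ ha
      rw [Complex.ofReal_re] at h5
      linarith) h3
    have h5 := hre α qa hα ia
    rw [sq, sq, Complex.mul_re, Complex.mul_re, h5] at h4
    by_contra hc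
    nlinarith [qa.1, qb.1, mul_self_nonneg β.im]
  refine ⟨h0, fun α β qa qb hα hβ => ?_⟩
  by_cases ia : (α ^ 2).im = 0 <;> by_cases ib : (β ^ 2).im = 0
  · have k1 := hre α qa hα ia
    have k2 := hre β qb hβ ib
    exact ⟨fun h => Complex.ext h (k1.trans k2.symm), fun _ => by rw [k1, k2]⟩
  · have k1 := hmix α β qa qb hα hβ ia ib
    exact ⟨fun h => absurd h k1.ne, fun _ => (hre α qa hα ia).trans_le qb.2⟩
  · have k1 := hmix β α qb qa hβ hα ib ia
    exact ⟨fun h => absurd h k1.ne', fun h => absurd h k1.le.not_gt⟩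
  · have pa : 0 ≤ (α ^ 2).im := by
      rw [sq, Complex.mul_im]; nlinarith [mul_nonneg qa.1 qa.2]
    have pb : 0 ≤ (β ^ 2).im := by
      rw [sq, Complex.mul_im]; nlinarith [mul_nonneg qb.1 qb.2]
    have k1 : α ^ 2 = β ^ 2 := by
      by_contra hc
      refine ia (hlin _ _ hβ ib hα hc fun h => ib ?_).2.1
      have := congrArg Complex.im h
      rw [Complex.conj_im] at this; linarith
    have k2 : α = β := by
      rcases sq_eq_sq_iff_eq_or_eq_neg.1 k1 with h | h
      · exact h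
      · exfalso
        apply ia
        have : α.im = 0 := by
          have := congrArg Complex.im h
          rw [Complex.neg_im] at this; linarith [qa.2, qb.2]
        have h2 : α.re = 0 := by
          have := congrArg Complex.re h
          rw [Complex.neg_re] at this; linarith [qa.1, qb.1]
        rw [sq, Complex.mul_im, this, h2]; simp
    exact ⟨fun _ => k2, fun h => by rw [k2]⟩

noncomputable def fam : Fin 3 → ℂ → ℂ :=
  ![fun z => cub (-1) 12 (-46) 52 (z ^ 2), fun z => cub 0 0 (-1) 4 (z ^ 2),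
    fun z => cub 0 1 (-5) 6 (z ^ 2)]

theorem compat_of {f g : ℂ → ℂ} {a b c d a' b' c' d' : ℝ}
    (hf : f = fun z => cub a b c d (z ^ 2)) (hg : g = fun z => cub a' b' c' d' (z ^ 2))
    (H : ∀ s t : ℝ, 0 ≤ s → 0 ≤ t → 0 < s + t →
      (∃ z : ℂ, cub (s * a + t * a') (s * b + t * b') (s * c + t * c') (s * d + t * d')
        (z ^ 2) ≠ 0) →
      Mono fun z => cub (s * a + t * a') (s * b + t * b') (s * c + t * c') (s * d + t * d')
        (z ^ 2)) : Compatible ![f, g] := by
  intro k hk hz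
  have e : ∀ z : ℂ, ∑ j, (k j : ℂ) * ![f, g] j z = cub (k 0 * a + k 1 * a') (k 0 * b + k 1 * b')
      (k 0 * c + k 1 * c') (k 0 * d + k 1 * d') (z ^ 2) := by
    intro z
    simp only [Fin.sum_univ_two, hf, hg, cub, Matrix.cons_val_zero, Matrix.cons_val_one]
    push_cast; ring
  simp only [e] at hz ⊢
  refine H _ _ (hk 0) (hk 1) ?_ hz
  by_contra hc
  obtain ⟨z, hz⟩ := hz
  have k0 : k 0 = 0 := by linarith [hk 0, hk 1]
  have k1 : k 1 = 0 := by linarith [hk 0, hk 1]
  apply hz; simp [k0, k1, cub]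

theorem pair01 : Compatible ![fam 0, fam 1] := by
  refine compat_of rfl rfl fun s t hs ht hst hz => ?_
  have key : ∀ x : ℝ, (s * -1 + t * 0) * x ^ 3 + (s * 12 + t * 0) * x ^ 2 +
      (s * -46 + t * -1) * x + (s * 52 + t * 4) = 0 → 2 ≤ x ∧ x ≤ 4 := by
    intro x hx
    have e : s * ((2 - x) * ((x - 5) ^ 2 + 1)) + t * (4 - x) = 0 := by linear_combination hx
    have hp : 0 < (x - 5) ^ 2 + 1 := by positivity
    constructor
    · by_contra hc
      have h1 : 0 < (2 - x) * ((x - 5) ^ 2 + 1) := mul_pos (by linarith) hp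
      rcases hs.eq_or_lt with rfl | hs
      · nlinarith
      · nlinarith [mul_pos hs h1, mul_nonneg ht (show 0 ≤ 4 - x by linarith)]
    · by_contra hc
      have h1 : 0 < (x - 2) * ((x - 5) ^ 2 + 1) := mul_pos (by linarith) hp
      rcases hs.eq_or_lt with rfl | hs
      · nlinarith
      · nlinarith [mul_pos hs h1, mul_nonneg ht (show 0 ≤ x - 4 by linarith)]
  refine mono_cub hz (fun x hx => by linarith [(key x hx).1]) fun x p ha hx _ hp => ?_
  have hs' : 0 < s := lt_of_le_of_ne hs (by rintro rfl; simp at ha)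
  have h1 : x + 2 * p = 12 := by
    apply mul_left_cancel₀ hs'.ne'; linear_combination -hp
  have h2 : x ≠ 4 := by
    rintro rfl; nlinarith
  have := lt_of_le_of_ne (key x hx).2 h2
  linarith

theorem pair02 : Compatible ![fam 0, fam 2] := by
  refine compat_of rfl rfl fun s t hs ht hst hz => ?_
  refine mono_cub hz (fun x hx => ?_) fun x p ha hx hu hp => ?_
  · by_contra hc
    have e : s * ((2 - x) * ((x - 5) ^ 2 + 1)) + t * ((2 - x) * (3 - x)) = 0 := by
      linear_combination hx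
    have h1 : 0 < (2 - x) * ((x - 5) ^ 2 + 1) := mul_pos (by linarith) (by positivity)
    have h2 : 0 < (2 - x) * (3 - x) := mul_pos (by linarith) (by linarith)
    rcases hs.eq_or_lt with rfl | hs
    · nlinarith
    · nlinarith [mul_pos hs h1, mul_nonneg ht h2.le]
  · have hs' : 0 < s := lt_of_le_of_ne hs (by rintro rfl; simp at ha)
    have h1 := hu 2 (by ring)
    subst h1
    by_contra hc
    nlinarith [mul_nonneg hs'.le (show 0 ≤ 2 - p by linarith)]

theorem pair12 : Compatible ![fam 1, fam 2] := by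
  refine compat_of rfl rfl fun s t hs ht hst hz => ?_
  refine mono_cub hz (fun x hx => ?_) fun x p ha => absurd (by ring) ha
  by_contra hc
  have e : s * (4 - x) + t * ((2 - x) * (3 - x)) = 0 := by linear_combination hx
  have h2 : 0 < (2 - x) * (3 - x) := mul_pos (by linarith) (by linarith)
  rcases hs.eq_or_lt with rfl | hs
  · nlinarith
  · nlinarith [mul_pos hs (show 0 < 4 - x by linarith), mul_nonneg ht h2.le]

theorem mono_of {f g : ℂ → ℂ} (h : Compatible ![f, g]) (hf : f 0 ≠ 0) (hg : g 0 ≠ 0) :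
    Mono f ∧ Mono g := by
  constructor
  · simpa using h ![1, 0] (fun j => by fin_cases j <;> simp) ⟨0, by simpa using hf⟩
  · simpa using h ![0, 1] (fun j => by fin_cases j <;> simp) ⟨0, by simpa using hg⟩

theorem ere (a b c d : ℝ) : EvenRealEntire fun z => cub a b c d (z ^ 2) := by
  refine ⟨by unfold cub; fun_prop, fun x => ?_, fun z => by simp⟩
  have : cub a b c d ((x : ℂ) ^ 2) =
      ((a * (x ^ 2) ^ 3 + b * (x ^ 2) ^ 2 + c * x ^ 2 + d : ℝ) : ℂ) := by
    rw [cub]; push_cast; ring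
  simp only [this, Complex.ofReal_im]

theorem result : ∃ f : Fin 3 → ℂ → ℂ, (∀ j, EvenRealEntire (f j) ∧ Mono (f j)) ∧
    (∀ i j, i < j → Compatible ![f i, f j]) ∧ ¬ Compatible f := by
  have m01 := mono_of pair01 (by simp [fam, cub]) (by simp [fam, cub])
  have m02 := mono_of pair02 (by simp [fam, cub]) (by simp [fam, cub])
  refine ⟨fam, fun j => ?_, fun i j hij => ?_, fun h => ?_⟩
  · fin_cases j
    · exact ⟨ere _ _ _ _, m01.1⟩
    · exact ⟨ere _ _ _ _, m01.2⟩
    · exact ⟨ere _ _ _ _, m02.2⟩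
  · fin_cases i <;> fin_cases j <;> simp at hij
    · exact pair01
    · exact pair02
    · exact pair12
  · have e : ∀ z : ℂ, ∑ j, ((![1, 45, 9] : Fin 3 → ℝ) j : ℂ) * fam j z =
        (11 - z ^ 2) * ((z ^ 2 - 5) ^ 2 + 1) := by
      intro z
      simp [Fin.sum_univ_three, fam, cub]
      ring
    have h1 := h ![1, 45, 9] (fun j => by fin_cases j <;> simp) ⟨0, by rw [e]; norm_num⟩
    simp only [e] at h1
    obtain ⟨z, hz⟩ := IsAlgClosed.exists_pow_nat_eq (5 + Complex.I : ℂ) two_pos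
    obtain ⟨α, hα, hpos⟩ : ∃ α : ℂ, α ^ 2 = 5 + Complex.I ∧ 0 ≤ α.re := by
      rcases le_total 0 z.re with h | h
      · exact ⟨z, hz, h⟩
      · exact ⟨-z, by simpa using hz, by simpa using h⟩
    have k1 := congrArg Complex.re hα
    have k2 := congrArg Complex.im hα
    simp [sq] at k1 k2
    have k3 : 0 < α.im := by
      by_contra hc
      nlinarith [mul_nonneg hpos (show 0 ≤ -α.im by linarith)]
    have k4 : α.re < Real.sqrt 11 := by
      apply Real.lt_sqrt_of_sq_lt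
      by_contra hc
      have h6 : 6 ≤ α.im * α.im := by nlinarith
      have h7 : α.re * α.im = 1 / 2 := by linarith
      have h8 : (α.re * α.re) * (α.im * α.im) = 1 / 4 := by
        rw [show (α.re * α.re) * (α.im * α.im) = (α.re * α.im) ^ 2 by ring, h7]; norm_num
      nlinarith
    have k5 := (h1.2 α (Real.sqrt 11 : ℝ) ⟨hpos, k3.le⟩ ⟨by simp, by simp⟩
      (by beta_reduce; rw [hα]; simp)
      (by
        beta_reduce
        rw [← Complex.ofReal_pow, Real.sq_sqrt (by norm_num)]; simp)).2 (by simpa using k4)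
    rw [Complex.ofReal_im] at k5
    linarith

end Pool.Agent.Results.MP_c4a6c0_an.Counterexample
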